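import Pool.Agent.L7h3.SC.Stm

set_option autoImplicit false

/-! [HOR] of project SC (helper3). -/

namespace Pool.Agent.L7h6.SC

open Filter Topology Pool.Agent.L7h3.SC

theorem tapp {E : Type} [NormedAddCommGroup E] [NormedSpace ℝ E] {g : ℕ → E →L[ℝ] ℝ}
    {G : E →L[ℝ] ℝ} {z : ℕ → E} {v : E} (hg : Tendsto g atTop (𝓝 G)) (hz : Tendsto z atTop (𝓝 v)) :
    Tendsto (fun n => g n (z n)) atTop (𝓝 (G v)) :=
  ((isBoundedBilinearMap_apply (𝕜 := ℝ) (E := E) (F := ℝ)).continuous.tendsto (G, v)).comp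
    (hg.prodMk_nhds hz)

theorem s_HOR : S_HOR := by
  intro E _ _ _ z v y c hz hv hc
  choose g hg1 hg2 using fun n => exists_dual_vector'' ℝ (z n)
  choose k hk1 hk2 using fun n => exists_dual_vector'' ℝ (z n - y)
  have hcomp : IsCompact (Metric.closedBall (0 : E →L[ℝ] ℝ) 1 ×ˢ
      Metric.closedBall (0 : E →L[ℝ] ℝ) 1) :=
    (isCompact_closedBall _ _).prod (isCompact_closedBall _ _)
  obtain ⟨⟨G, K⟩, hGK, φ, hφ, hlim⟩ := hcomp.tendsto_subseq
    (x := fun n => ((g n : E →L[ℝ] ℝ), (k n : E →L[ℝ] ℝ))) (fun n => by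
      refine ⟨?_, ?_⟩
      · rw [mem_closedBall_zero_iff]
        exact hg1 n
      · rw [mem_closedBall_zero_iff]
        exact hk1 n)
  have hG : Tendsto (fun n => (g (φ n) : E →L[ℝ] ℝ)) atTop (𝓝 G) :=
    (continuous_fst.tendsto _).comp hlim
  have hK : Tendsto (fun n => (k (φ n) : E →L[ℝ] ℝ)) atTop (𝓝 K) :=
    (continuous_snd.tendsto _).comp hlim
  have hGn : ‖G‖ ≤ 1 := mem_closedBall_zero_iff.1 hGK.1
  have hKn : ‖K‖ ≤ 1 := mem_closedBall_zero_iff.1 hGK.2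
  have hφt : Tendsto φ atTop atTop := hφ.tendsto_atTop
  have hzφ : Tendsto (fun n => ‖z (φ n)‖) atTop atTop := hz.comp hφt
  have hvφ : Tendsto (fun n => ‖z (φ n)‖⁻¹ • z (φ n)) atTop (𝓝 v) := hv.comp hφt
  have hcφ : Tendsto (fun n => ‖z (φ n) - y‖ - ‖z (φ n)‖) atTop (𝓝 c) := hc.comp hφt
  have hGy : Tendsto (fun n => g (φ n) y) atTop (𝓝 (G y)) := tapp hG tendsto_const_nhds
  have hKy : Tendsto (fun n => k (φ n) y) atTop (𝓝 (K y)) := tapp hK tendsto_const_nhds
  have hpos : ∀ᶠ n in atTop, 0 < ‖z (φ n)‖ := hzφ.eventually_gt_atTop 0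
  have hGv : G v = 1 := by
    refine tendsto_nhds_unique (tapp hG hvφ) ?_
    refine (tendsto_congr' ?_).2 tendsto_const_nhds
    filter_upwards [hpos] with n hn
    rw [map_smul, smul_eq_mul, hg2]
    exact inv_mul_cancel₀ hn.ne'
  have hKv : K v = 1 := by
    refine tendsto_nhds_unique (tapp hK hvφ) ?_
    have h1 : Tendsto (fun n => 1 + ‖z (φ n)‖⁻¹ *
        ((‖z (φ n) - y‖ - ‖z (φ n)‖) + k (φ n) y)) atTop (𝓝 (1 + 0 * (c + K y))) :=
      tendsto_const_nhds.add ((tendsto_inv_atTop_zero.comp hzφ).mul (hcφ.add hKy))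
    rw [zero_mul, add_zero] at h1
    refine (tendsto_congr' ?_).2 h1
    filter_upwards [hpos] with n hn
    have h2 : k (φ n) (z (φ n)) = ‖z (φ n) - y‖ + k (φ n) y := by
      have h3 := hk2 (φ n)
      rw [map_sub] at h3
      simp only [Real.coe_toNNReal', RCLike.ofReal_real_eq_id, id] at h3
      linarith
    rw [map_smul, smul_eq_mul, h2]
    field_simp
    ring
  have hle : ∀ (ψ : E →L[ℝ] ℝ), ‖ψ‖ ≤ 1 → ∀ x, ψ x ≤ ‖x‖ := by
    intro ψ hψ x
    have h2 := ψ.le_opNorm x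
    have h3 : ‖ψ‖ * ‖x‖ ≤ 1 * ‖x‖ := mul_le_mul_of_nonneg_right hψ (norm_nonneg _)
    rw [Real.norm_eq_abs] at h2
    exact (le_abs_self _).trans (h2.trans (by linarith))
  have h0 : -c ≤ G y := by
    have h1 : -(G y) ≤ c := by
      refine le_of_tendsto_of_tendsto' hGy.neg hcφ fun n => ?_
      have h2 := hle _ (hg1 (φ n)) (z (φ n) - y)
      have h3 := hg2 (φ n)
      rw [map_sub] at h2
      simp only [RCLike.ofReal_real_eq_id, id] at h3
      linarith
    linarith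
  have h1 : K y ≤ -c := by
    have h1 : c ≤ -(K y) := by
      refine le_of_tendsto_of_tendsto' hcφ hKy.neg fun n => ?_
      have h2 := hle _ (hk1 (φ n)) (z (φ n))
      have h3 := hk2 (φ n)
      rw [map_sub] at h3
      simp only [RCLike.ofReal_real_eq_id, id] at h3
      linarith
    linarith
  have hseg : -c ∈ segment ℝ (K y) (G y) := by
    rw [segment_eq_Icc (h1.trans h0)]
    exact ⟨h1, h0⟩
  obtain ⟨a, b, ha, hb, hab, habc⟩ := hseg
  refine ⟨a • K + b • G, ?_, ?_, ?_⟩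
  · calc ‖a • K + b • G‖ ≤ ‖a • K‖ + ‖b • G‖ := norm_add_le _ _
      _ = a * ‖K‖ + b * ‖G‖ := by
        rw [norm_smul, norm_smul, Real.norm_of_nonneg ha, Real.norm_of_nonneg hb]
      _ ≤ a * 1 + b * 1 := add_le_add (mul_le_mul_of_nonneg_left hKn ha)
        (mul_le_mul_of_nonneg_left hGn hb)
      _ = 1 := by linarith
  · simp only [ContinuousLinearMap.add_apply, ContinuousLinearMap.smul_apply, smul_eq_mul, hKv, hGv]
    linarith
  · simpa only [ContinuousLinearMap.add_apply, ContinuousLinearMap.smul_apply] using habc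

end Pool.Agent.L7h6.SC
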