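import Pool.Agent.L7h3.SC.Stm

set_option autoImplicit false

/-! [TWO] of project SC (helper3). -/

namespace Pool.Agent.L7h6.SC

open Filter Topology Pool.Agent.L7h3.SC

theorem exists_w {E : Type} [NormedAddCommGroup E] [NormedSpace ℝ E]
    (h : Module.finrank ℝ E = 2) (y : E) (hy : y ≠ 0) :
    ∃ w : E, ∀ θ : E →ₗ[ℝ] ℝ, θ y = 0 → θ w = 0 → θ = 0 := by
  have h1 : ∃ w : E, ∀ a : ℝ, a • y ≠ w := by
    by_contra hn
    push Not at hn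
    have := finrank_le_one y hn
    omega
  obtain ⟨w, hw⟩ := h1
  refine ⟨w, fun θ h2 h3 => ?_⟩
  have hl : LinearIndependent ℝ ![y, w] := (LinearIndependent.pair_iff' hy).2 hw
  have hb := coe_basisOfLinearIndependentOfCardEqFinrank hl (by rw [h]; simp)
  refine (basisOfLinearIndependentOfCardEqFinrank hl (by rw [h]; simp)).ext fun i => ?_
  rw [hb]
  fin_cases i
  · simpa using h2
  · simpa using h3

theorem same {E : Type} [NormedAddCommGroup E] [NormedSpace ℝ E] [StrictConvexSpace ℝ E]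
    (ψ : E →L[ℝ] ℝ) (hψ : ‖ψ‖ ≤ 1) (v v' : E) (hv : ‖v‖ = 1) (hv' : ‖v'‖ = 1) (h : ψ v = 1)
    (h' : ψ v' = 1) : v = v' := by
  have h1 : ψ (v + v') ≤ ‖v + v'‖ := by
    have h2 := ψ.le_opNorm (v + v')
    have h3 : ‖ψ‖ * ‖v + v'‖ ≤ 1 * ‖v + v'‖ := mul_le_mul_of_nonneg_right hψ (norm_nonneg _)
    exact (le_abs_self _).trans ((Real.norm_eq_abs _ ▸ h2).trans (by linarith))
  rw [map_add, h, h'] at h1
  have h4 : ‖v + v'‖ ≤ ‖v‖ + ‖v'‖ := norm_add_le _ _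
  have h5 : ‖v + v'‖ = ‖v‖ + ‖v'‖ := by
    rw [hv, hv'] at h4 ⊢
    linarith
  have h6 : SameRay ℝ v v' := sameRay_iff_norm_add.2 h5
  exact (sameRay_iff_of_norm_eq (by rw [hv, hv'])).1 h6

theorem three {E : Type} [NormedAddCommGroup E] [NormedSpace ℝ E] [StrictConvexSpace ℝ E]
    (y w : E) (hw : ∀ θ : E →ₗ[ℝ] ℝ, θ y = 0 → θ w = 0 → θ = 0) (c : ℝ)
    (ψ₁ ψ₂ ψ₃ : E →L[ℝ] ℝ) (v₁ v₂ : E) (n₁ : ‖ψ₁‖ ≤ 1) (n₃ : ‖ψ₃‖ ≤ 1)
    (hv₁ : ‖v₁‖ = 1) (hv₂ : ‖v₂‖ = 1) (e₁ : ψ₁ v₁ = 1) (e₂ : ψ₂ v₂ = 1) (y₁ : ψ₁ y = -c)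
    (y₂ : ψ₂ y = -c) (y₃ : ψ₃ y = -c) (h1 : ψ₁ w < ψ₂ w) (h2 : ψ₂ w < ψ₃ w) : v₁ = v₂ := by
  have hd : 0 < ψ₃ w - ψ₁ w := by linarith
  set a := (ψ₃ w - ψ₂ w) / (ψ₃ w - ψ₁ w) with ha
  have ha0 : 0 < a := div_pos (by linarith) hd
  have ha1 : a < 1 := by
    rw [ha, div_lt_one hd]
    linarith
  have hz := hw ((ψ₂ - (a • ψ₁ + (1 - a) • ψ₃) : E →L[ℝ] ℝ) : E →ₗ[ℝ] ℝ) (by
    simp only [ContinuousLinearMap.coe_coe, ContinuousLinearMap.sub_apply,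
      ContinuousLinearMap.add_apply, ContinuousLinearMap.smul_apply, smul_eq_mul, y₁, y₂, y₃]
    ring) (by
    simp only [ContinuousLinearMap.coe_coe, ContinuousLinearMap.sub_apply,
      ContinuousLinearMap.add_apply, ContinuousLinearMap.smul_apply, smul_eq_mul]
    rw [ha]
    field_simp
    ring)
  have h3 := congrArg (fun θ : E →ₗ[ℝ] ℝ => θ v₂) hz
  simp only [ContinuousLinearMap.coe_coe, ContinuousLinearMap.sub_apply,
    ContinuousLinearMap.add_apply, ContinuousLinearMap.smul_apply, smul_eq_mul,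
    LinearMap.zero_apply, e₂] at h3
  have hle : ∀ ψ : E →L[ℝ] ℝ, ‖ψ‖ ≤ 1 → ψ v₂ ≤ 1 := by
    intro ψ hψ
    have h4 := ψ.le_opNorm v₂
    rw [hv₂, mul_one, Real.norm_eq_abs] at h4
    exact (le_abs_self _).trans (h4.trans hψ)
  have h5 := hle ψ₁ n₁
  have h6 := hle ψ₃ n₃
  have h7 : ψ₁ v₂ = 1 := by
    refine le_antisymm h5 ?_
    have h8 : (1 - a) * ψ₃ v₂ ≤ (1 - a) * 1 := mul_le_mul_of_nonneg_left h6 (by linarith)
    have h9 : a * 1 ≤ a * ψ₁ v₂ := by linarith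
    exact le_of_mul_le_mul_left h9 ha0
  exact same ψ₁ n₁ v₁ v₂ hv₁ hv₂ e₁ h7

theorem s_TWO : S_TWO := by
  classical
  intro E _ _ _ hE y c hy
  obtain ⟨w, hw⟩ := exists_w hE y hy
  by_contra hinf
  obtain ⟨F, hF, hF3⟩ := (show ({v : E | ‖v‖ = 1 ∧ ∃ ψ : E →L[ℝ] ℝ, ‖ψ‖ ≤ 1 ∧ ψ v = 1 ∧
    ψ y = -c}).Infinite from hinf).exists_subset_card_eq 3
  obtain ⟨a, b, d, hab, had, hbd, rfl⟩ := Finset.card_eq_three.1 hF3
  obtain ⟨na, ψa, pa, qa, ra⟩ := hF (show a ∈ (({a, b, d} : Finset E) : Set E) by simp)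
  obtain ⟨nb, ψb, pb, qb, rb⟩ := hF (show b ∈ (({a, b, d} : Finset E) : Set E) by simp)
  obtain ⟨nd, ψd, pd, qd, rd⟩ := hF (show d ∈ (({a, b, d} : Finset E) : Set E) by simp)
  have hne : ∀ (ψ ψ' : E →L[ℝ] ℝ) (v v' : E), ‖v‖ = 1 → ‖v'‖ = 1 → ‖ψ‖ ≤ 1 → ψ v = 1 → ψ' v' = 1 →
      ψ y = -c → ψ' y = -c → v ≠ v' → ψ w ≠ ψ' w := by
    intro ψ ψ' v v' h1 h2 h3 h4 h5 h6 h7 h8 h9
    have hz := hw ((ψ - ψ' : E →L[ℝ] ℝ) : E →ₗ[ℝ] ℝ) (by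
      simp only [ContinuousLinearMap.coe_coe, ContinuousLinearMap.sub_apply, h6, h7]
      ring) (by
      simp only [ContinuousLinearMap.coe_coe, ContinuousLinearMap.sub_apply, h9]
      ring)
    have h10 := congrArg (fun θ : E →ₗ[ℝ] ℝ => θ v') hz
    simp only [ContinuousLinearMap.coe_coe, ContinuousLinearMap.sub_apply,
      LinearMap.zero_apply, h5] at h10
    exact h8 (same ψ h3 v v' h1 h2 h4 (by linarith))
  have k1 := hne ψa ψb a b na nb pa qa qb ra rb hab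
  have k2 := hne ψa ψd a d na nd pa qa qd ra rd had
  have k3 := hne ψb ψd b d nb nd pb qb qd rb rd hbd
  rcases lt_or_gt_of_ne k1 with l1 | l1
  · rcases lt_or_gt_of_ne k3 with l3 | l3
    · exact hab (three y w hw c ψa ψb ψd a b pa pd na nb qa qb ra rb rd l1 l3)
    · rcases lt_or_gt_of_ne k2 with l2 | l2
      · exact had (three y w hw c ψa ψd ψb a d pa pb na nd qa qd ra rd rb l2 l3)
      · exact had (three y w hw c ψd ψa ψb d a pd pb nd na qd qa rd ra rb l2 l1).symm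
  · rcases lt_or_gt_of_ne k3 with l3 | l3
    · rcases lt_or_gt_of_ne k2 with l2 | l2
      · exact hab (three y w hw c ψb ψa ψd b a pb pd nb na qb qa rb ra rd l1 l2).symm
      · exact hbd (three y w hw c ψb ψd ψa b d pb pa nb nd qb qd rb rd ra l3 l2)
    · exact hbd (three y w hw c ψd ψb ψa d b pd pa nd nb qd qb rd rb ra l3 l1).symm

end Pool.Agent.L7h6.SC
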